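import Pool.Agent.MVD.StmtsLoc
import Pool.Agent.Helper21_MVD.PEN
import Pool.Agent.Helper32_MVD.GEN
import Pool.Agent.Helper27_MVD.CTX
import Pool.Agent.Helper66_MVD.FAC

/-!
# Squad MVD, row NCE: a small pentagon
-/

set_option autoImplicit false

namespace Pool.Agent.MVD.H69

open Pool.Agent.Helper14_MV Pool.Agent.Helper2_MV Pool.Agent.MVD

/-! ### orders of first and last occurrences -/

/-- projection to two letters -/
def two (a b c : ℕ) : Bool := decide (c = a ∨ c = b)

theorem two_comm (a b : ℕ) : two b a = two a b := by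
  funext c
  simp only [two, or_comm]

theorem fa_iff {a b : ℕ} (hab : a ≠ b) (l : List ℕ) :
    FA a b l ↔ (l.filter (two a b)).head? = some a := by
  induction l with
  | nil =>
    constructor
    · rintro ⟨A, C, h, -⟩
      simp at h
    · intro h
      simp at h
  | cons c l ih =>
    by_cases hca : c = a
    · subst hca
      constructor
      · intro _
        simp [two]
      · intro _
        exact ⟨[], l, rfl, by simp⟩
    · by_cases hcb : c = b
      · subst hcb
        constructor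
        · rintro ⟨A, C, h, hA⟩
          cases A with
          | nil => exact absurd (List.cons.inj h).1 hca
          | cons d A => exact absurd (by rw [(List.cons.inj h).1]; exact List.mem_cons_self) hA
        · intro h
          simp [two] at h
          exact absurd h hca
      · have h1 : (c :: l).filter (two a b) = l.filter (two a b) := by simp [two, hca, hcb]
        rw [h1, ← ih]
        constructor
        · rintro ⟨A, C, h, hA⟩
          cases A with
          | nil => exact absurd (List.cons.inj h).1 hca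
          | cons d A =>
            exact ⟨A, C, (List.cons.inj h).2, fun hb => hA (List.mem_cons_of_mem _ hb)⟩
        · rintro ⟨A, C, rfl, hA⟩
          refine ⟨c :: A, C, rfl, ?_⟩
          rw [List.mem_cons, not_or]
          exact ⟨Ne.symm hcb, hA⟩

theorem la_rev (a b : ℕ) (l : List ℕ) : LA a b l ↔ FA b a l.reverse := by
  constructor
  · rintro ⟨A, C, rfl, h⟩
    exact ⟨C.reverse, A.reverse, by simp, by simpa using h⟩
  · rintro ⟨A, C, h, hA⟩
    refine ⟨C.reverse, A.reverse, ?_, by simpa using hA⟩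
    have h1 := congrArg List.reverse h
    simpa using h1

theorem la_iff {a b : ℕ} (hab : a ≠ b) (l : List ℕ) :
    LA a b l ↔ (l.filter (two a b)).getLast? = some b := by
  rw [la_rev, fa_iff hab.symm, List.filter_reverse, List.head?_reverse, two_comm]

theorem last_two {a b : ℕ} {l : List ℕ} (ha : a ∈ l) :
    (l.filter (two a b)).getLast? = some a ∨ (l.filter (two a b)).getLast? = some b := by
  have h1 : a ∈ l.filter (two a b) := by
    rw [List.mem_filter]
    exact ⟨ha, by simp [two]⟩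
  cases h : (l.filter (two a b)).getLast? with
  | none =>
    rw [List.getLast?_eq_none_iff] at h
    rw [h] at h1
    simp at h1
  | some x =>
    have h2 : x ∈ l.filter (two a b) := List.mem_of_getLast? h
    rw [List.mem_filter] at h2
    have h3 : x = a ∨ x = b := by simpa [two] using h2.2
    rcases h3 with h3 | h3
    · left
      rw [h3]
    · right
      rw [h3]

theorem first_two {a b : ℕ} {l : List ℕ} (ha : a ∈ l) :
    (l.filter (two a b)).head? = some a ∨ (l.filter (two a b)).head? = some b := by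
  have h1 := last_two (a := a) (b := b) (l := l.reverse) (by simpa using ha)
  rw [List.filter_reverse, List.getLast?_reverse] at h1
  exact h1

theorem la_not {a b : ℕ} (hab : a ≠ b) {l : List ℕ} (ha : a ∈ l) : LA a b l ↔ ¬ LA b a l := by
  rw [la_iff hab, la_iff hab.symm, two_comm a b]
  rcases last_two (b := b) ha with h | h
  · rw [h]
    simp [hab]
  · rw [h]
    simp [hab.symm]

theorem fa_not {a b : ℕ} (hab : a ≠ b) {l : List ℕ} (ha : a ∈ l) : FA a b l ↔ ¬ FA b a l := by
  rw [fa_iff hab, fa_iff hab.symm, two_comm a b]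
  rcases first_two (b := b) ha with h | h
  · rw [h]
    simp [hab]
  · rw [h]
    simp [hab.symm]

theorem la_filter {a b : ℕ} (hab : a ≠ b) {l l' : List ℕ}
    (h : l.filter (two a b) = l'.filter (two a b)) : LA a b l ↔ LA a b l' := by
  rw [la_iff hab, la_iff hab, h]

theorem la_swap {a b : ℕ} (hab : a ≠ b) {A X X' C : List ℕ} (hX : ∀ c ∈ X, c ∈ C)
    (hX' : ∀ c ∈ X', c ∈ C) : LA a b (A ++ (X ++ C)) ↔ LA a b (A ++ (X' ++ C)) := by
  rw [la_iff hab, la_iff hab]
  simp only [List.filter_append]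
  by_cases hC : C.filter (two a b) = []
  · have h1 : ∀ Z : List ℕ, (∀ c ∈ Z, c ∈ C) → Z.filter (two a b) = [] := by
      intro Z hZ
      rw [List.filter_eq_nil_iff] at hC ⊢
      exact fun c hc => hC c (hZ c hc)
    rw [h1 X hX, h1 X' hX']
  · obtain ⟨x, hx⟩ : ∃ x, (C.filter (two a b)).getLast? = some x := by
      cases h : (C.filter (two a b)).getLast? with
      | none =>
        rw [List.getLast?_eq_none_iff] at h
        exact absurd h hC
      | some x => exact ⟨x, rfl⟩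
    simp only [List.getLast?_append, hx, Option.some_or]

/-! ### the words -/

/-- the blocks of the words of `B` -/
def BB (b1 b2 : ℕ) (K : List ℕ) (r : ℕ) : List ℕ :=
  if r = 1 then List.replicate b1 9 else if r = 2 then List.replicate b2 9 else
    if r = 3 then [7] else if r = 0 then K else []

/-- the words of `B` -/
def WB (b1 b2 : ℕ) (K : List ℕ) : List ℕ := Bw [1, 2, 3, 0, 4] (BB b1 b2 K)

/-- the blocks of the words of `C` -/
def BC (K : List ℕ) (r : ℕ) : List ℕ :=
  if r = 3 then [7] else if r = 0 then K else if r = 4 then [10] else []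

/-- the words of `C` -/
def WC (K : List ℕ) : List ℕ := Bw [1, 2, 3, 0, 4] (BC K)

theorem WB_eq (b1 b2 : ℕ) (K : List ℕ) : WB b1 b2 K = List.replicate b1 9 ++ (5 ::
    (List.replicate b2 9 ++ (8 :: 7 :: 11 :: (K ++ [2, 14])))) := by
  simp [WB, Bw, BB]

theorem WC_eq (K : List ℕ) : WC K = 5 :: 8 :: 7 :: 11 :: (K ++ [2, 10, 14]) := by
  simp [WC, Bw, BC]

/-- the conditions on the main block, `B` -/
structure CondB (K : List ℕ) : Prop where
  pm : K.Perm [0, 0, 3, 3, 7, 9]
  l1 : LA 3 7 K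
  l2 : LA 7 0 K
  l3 : LA 9 0 K

/-- the conditions on the main block, `C` -/
structure CondC (K : List ℕ) : Prop where
  pm : K.Perm [0, 0, 3, 3, 7, 10]
  f1 : FA 0 10 K
  f2 : FA 10 3 K

/-- the one letter identity -/
def IdB (β : FIC) (b1 b2 : ℕ) : Prop :=
  RR β [9, 5, 9, 8, 9] (List.replicate b1 9 ++ (5 :: (List.replicate b2 9 ++ [8, 9])))

/-- the filtered words of `B` -/
def SBf (β : FIC) (w : List ℕ) : Prop := ∃ b1 b2 K, w = WB b1 b2 K ∧ CondB K ∧ IdB β b1 b2

/-- the set `B` -/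
def SB (β : FIC) (v : List ℕ) : Prop := SBf β (v.filter (fun c => decide (c ≠ 10)))

/-- the filtered words of `C` -/
def SCf (w : List ℕ) : Prop := ∃ K, w = WC K ∧ CondC K

/-- the set `C` -/
def SC (v : List ℕ) : Prop := SCf (v.filter (fun c => decide (c ≠ 9)))

theorem CondB.cnt {K : List ℕ} (h : CondB K) (c : ℕ) :
    K.count c = ([0, 0, 3, 3, 7, 9] : List ℕ).count c := h.pm.count_eq c

theorem CondC.cnt {K : List ℕ} (h : CondC K) (c : ℕ) :
    K.count c = ([0, 0, 3, 3, 7, 10] : List ℕ).count c := h.pm.count_eq c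

theorem CondB.mem {K : List ℕ} (h : CondB K) {c : ℕ} (hc : c ∈ K) :
    c = 0 ∨ c = 3 ∨ c = 7 ∨ c = 9 := by
  have h1 := (h.pm.mem_iff (a := c)).mp hc
  simp only [List.mem_cons, List.not_mem_nil, or_false] at h1
  omega

theorem CondC.mem {K : List ℕ} (h : CondC K) {c : ℕ} (hc : c ∈ K) :
    c = 0 ∨ c = 3 ∨ c = 7 ∨ c = 10 := by
  have h1 := (h.pm.mem_iff (a := c)).mp hc
  simp only [List.mem_cons, List.not_mem_nil, or_false] at h1
  omega

theorem sfrB {b1 b2 : ℕ} {K : List ℕ} (h : CondB K) :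
    ∀ r ∈ ([1, 2, 3, 0, 4] : List ℕ), SFr (BB b1 b2 K r) := by
  intro r _ c hc
  unfold BB at hc
  split_ifs at hc
  · rw [List.eq_of_mem_replicate hc]
    omega
  · rw [List.eq_of_mem_replicate hc]
    omega
  · rw [List.mem_singleton] at hc
    omega
  · have := h.mem hc
    omega
  · simp at hc

theorem sfrC {K : List ℕ} (h : CondC K) :
    ∀ r ∈ ([1, 2, 3, 0, 4] : List ℕ), SFr (BC K r) := by
  intro r _ c hc
  unfold BC at hc
  split_ifs at hc
  · rw [List.mem_singleton] at hc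
    omega
  · have := h.mem hc
    omega
  · rw [List.mem_singleton] at hc
    omega
  · simp at hc

/-- the number of occurrences in the words of `B` -/
theorem WB_cnt {b1 b2 : ℕ} {K : List ℕ} (h : CondB K) (c : ℕ) (hc : c ≠ 9) :
    (WB b1 b2 K).count c ≤ 2 ∧ (c % 3 = 2 → (WB b1 b2 K).count c ≤ 1) := by
  rw [WB_eq]
  simp only [List.count_append, List.count_cons, List.count_nil, List.count_replicate, h.cnt,
    beq_iff_eq]
  constructor
  · split_ifs <;> omega
  · intro h3
    split_ifs <;> omega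

theorem WC_cnt {K : List ℕ} (h : CondC K) (c : ℕ) :
    (WC K).count c ≤ 2 ∧ (c % 3 = 2 → (WC K).count c ≤ 1) := by
  rw [WC_eq]
  simp only [List.count_append, List.count_cons, List.count_nil, h.cnt, beq_iff_eq]
  constructor
  · split_ifs <;> omega
  · intro h3
    split_ifs <;> omega

theorem split0 {R1 R2 : List ℕ} (h : [1, 2, 3, 0, 4] = R1 ++ 0 :: R2) :
    R1 = [1, 2, 3] ∧ R2 = [4] := by
  rcases R1 with _ | ⟨x1, _ | ⟨x2, _ | ⟨x3, _ | ⟨x4, _ | ⟨x5, R1⟩⟩⟩⟩⟩ <;> simp_all

/-- a factor without separators of a word of `B` is in one block -/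
theorem facB {b1 b2 : ℕ} {K A F C : List ℕ} (hK : CondB K) (hF : SFr F) (hne : F ≠ [])
    (h : WB b1 b2 K = A ++ (F ++ C)) :
    (∀ c ∈ F, c = 9) ∨ (F = [7]) ∨ ∃ a c, K = a ++ (F ++ c) ∧
      A = List.replicate b1 9 ++ (5 :: (List.replicate b2 9 ++ (8 :: 7 :: 11 :: a))) ∧
        C = c ++ [2, 14] := by
  obtain ⟨R1, r, R2, a, c, hR, hBr, hA, hC⟩ := H66.fac [1, 2, 3, 0, 4] (BB b1 b2 K) A F C
    (sfrB hK) hF hne h
  have hr : r ∈ ([1, 2, 3, 0, 4] : List ℕ) := by
    rw [hR]
    simp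
  simp only [List.mem_cons, List.not_mem_nil, or_false] at hr
  rcases hr with rfl | rfl | rfl | rfl | rfl
  · left
    intro d hd
    have h1 : d ∈ BB b1 b2 K 1 := by
      rw [hBr]
      simp [hd]
    exact List.eq_of_mem_replicate (n := b1) (by simpa [BB] using h1)
  · left
    intro d hd
    have h1 : d ∈ BB b1 b2 K 2 := by
      rw [hBr]
      simp [hd]
    exact List.eq_of_mem_replicate (n := b2) (by simpa [BB] using h1)
  · right
    left
    have h1 : [7] = a ++ (F ++ c) := by simpa [BB] using hBr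
    have h2 := congrArg List.length h1
    simp only [List.length_append, List.length_cons, List.length_nil] at h2
    have h3 : 0 < F.length := List.length_pos_iff.mpr hne
    have ha : a = [] := List.eq_nil_of_length_eq_zero (by omega)
    have hc : c = [] := List.eq_nil_of_length_eq_zero (by omega)
    rw [ha, hc] at h1
    simpa using h1.symm
  · right
    right
    obtain ⟨e1, e2⟩ := split0 hR
    subst e1
    subst e2
    refine ⟨a, c, by simpa [BB] using hBr, ?_, ?_⟩
    · rw [hA]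
      simp [Bw, BB]
    · rw [hC]
      simp [Bw, BB]
  · have h1 : [] = a ++ (F ++ c) := by simpa [BB] using hBr
    have h2 := congrArg List.length h1
    simp only [List.length_append, List.length_nil] at h2
    have h3 : 0 < F.length := List.length_pos_iff.mpr hne
    omega

theorem comm9 {X Y : List ℕ} (hX : ∀ c ∈ X, c = 9) (hY : ∀ c ∈ Y, c = 9) : X ++ Y = Y ++ X := by
  rw [List.eq_replicate_of_mem hX, List.eq_replicate_of_mem hY]
  simp only [List.replicate_append_replicate, List.length_replicate]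
  rw [Nat.add_comm]

theorem cnt_pos {c : ℕ} {l : List ℕ} (h : c ∈ l) : 1 ≤ l.count c := List.count_pos_iff.mpr h

/-- exchange of two factors all of whose letters occur again later -/
theorem ex_keep {β : FIC} {A X Y C : List ℕ} (hX : ∀ c ∈ X, c ∈ C) (hY : ∀ c ∈ Y, c ∈ C)
    (h : SBf β (A ++ (X ++ (Y ++ C)))) : SBf β (A ++ (Y ++ (X ++ C))) := by
  obtain ⟨b1, b2, K, hw, hK, hI⟩ := h
  by_cases hne : X ++ Y = []
  · rw [List.append_eq_nil_iff] at hne
    refine ⟨b1, b2, K, ?_, hK, hI⟩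
    rw [← hw, hne.1, hne.2]
  have hsep : ∀ c ∈ X ++ Y, c % 3 ≠ 2 := by
    intro c hc h3
    have h1 := (WB_cnt (b1 := b1) (b2 := b2) hK c (by omega)).2 h3
    rw [← hw] at h1
    have h2 : c ∈ C := by
      rcases List.mem_append.mp hc with h | h
      · exact hX c h
      · exact hY c h
    have h4 := cnt_pos h2
    have h5 := cnt_pos hc
    simp only [List.count_append] at h1 h5
    omega
  have hw2 : WB b1 b2 K = A ++ ((X ++ Y) ++ C) := by
    rw [← hw, List.append_assoc]
  rcases facB hK hsep hne hw2 with h9 | h7 | ⟨a, c, hKa, hA, hC⟩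
  · have h1 : X ++ Y = Y ++ X := comm9 (fun c hc => h9 c (List.mem_append_left _ hc))
      (fun c hc => h9 c (List.mem_append_right _ hc))
    refine ⟨b1, b2, K, ?_, hK, hI⟩
    rw [hw2, h1]
    simp only [List.append_assoc]
  · have h1 : X ++ Y = Y ++ X := by
      rcases X with _ | ⟨x, X⟩
      · simp
      · have h2 : Y = [] := by
          have h3 := congrArg List.length h7
          simp only [List.length_append, List.length_cons, List.length_nil] at h3
          exact List.eq_nil_of_length_eq_zero (by omega)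
        rw [h2]
        simp
    refine ⟨b1, b2, K, ?_, hK, hI⟩
    rw [hw2, h1]
    simp only [List.append_assoc]
  · have hXc : ∀ d ∈ X ++ Y, d ∈ c := by
      intro d hd
      have h2 : d ∈ C := by
        rcases List.mem_append.mp hd with h | h
        · exact hX d h
        · exact hY d h
      have h3 := hsep d hd
      rw [hC] at h2
      simp only [List.mem_append, List.mem_cons, List.not_mem_nil, or_false] at h2
      rcases h2 with h2 | h2 | h2
      · exact h2
      · omega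
      · omega
    have hYc : ∀ d ∈ Y ++ X, d ∈ c := by
      intro d hd
      refine hXc d ?_
      rw [List.mem_append] at hd ⊢
      exact hd.symm
    refine ⟨b1, b2, a ++ ((Y ++ X) ++ c), ?_, ⟨?_, ?_, ?_, ?_⟩, hI⟩
    · rw [hA, hC, WB_eq]
      simp
    · refine List.Perm.trans ?_ hK.pm
      rw [hKa]
      exact List.Perm.append_left _ (List.Perm.append_right _ List.perm_append_comm)
    · rw [← la_swap (by omega) hXc hYc, ← hKa]
      exact hK.l1
    · rw [← la_swap (by omega) hXc hYc, ← hKa]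
      exact hK.l2
    · rw [← la_swap (by omega) hXc hYc, ← hKa]
      exact hK.l3

theorem filt_nil {a b : ℕ} {l : List ℕ} (h : ∀ c ∈ l, c ≠ a ∧ c ≠ b) : l.filter (two a b) = [] := by
  rw [List.filter_eq_nil_iff]
  intro c hc
  have h1 := h c hc
  simp [two, h1.1, h1.2]

/-- exchange of `x` and the last `y` -/
theorem g1_core {β : FIC} {A C u0 u3 u10 u7 u9 Z Z' : List ℕ}
    (h9 : ∀ c ∈ u9, 2 ≤ A.count c) (h10 : ∀ c ∈ u10, c ∈ C) (h7 : ∀ c ∈ u7, c ∈ A)
    (hZ : (Z = u0 ++ u9 ∧ Z' = u9 ++ u0) ∨ (Z = u9 ++ u0 ∧ Z' = u0 ++ u9))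
    (h0 : ∀ K a c, CondB K → 0 ∈ u0 → u9 = [9] →
      K = a ++ (((u0 ++ (u3 ++ (u10 ++ (u3 ++ u7)))) ++ Z) ++ c) → False)
    (h : SBf β (A ++ (((u0 ++ (u3 ++ (u10 ++ (u3 ++ u7)))) ++ Z) ++ C))) :
    SBf β (A ++ (((u0 ++ (u3 ++ (u10 ++ (u3 ++ u7)))) ++ Z') ++ C)) := by
  obtain ⟨P, hP⟩ : ∃ P, P = u0 ++ (u3 ++ (u10 ++ (u3 ++ u7))) := ⟨_, rfl⟩
  rw [← hP] at h ⊢
  have hPc : ∀ c, P.count c = u0.count c + (u3.count c + (u10.count c + (u3.count c +
      u7.count c))) := by
    intro c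
    rw [hP]
    simp only [List.count_append]
  have hZc : ∀ c, Z.count c = u0.count c + u9.count c := by
    intro c
    rcases hZ with ⟨rfl, rfl⟩ | ⟨rfl, rfl⟩
    · simp only [List.count_append]
    · simp only [List.count_append]
      omega
  have hperm : Z'.Perm Z := by
    rcases hZ with ⟨rfl, rfl⟩ | ⟨rfl, rfl⟩
    · exact List.perm_append_comm
    · exact List.perm_append_comm
  have heq : ∀ {w : List ℕ}, u0 ++ u9 = u9 ++ u0 → SBf β (A ++ ((P ++ Z) ++ C)) →
      SBf β (A ++ ((P ++ Z') ++ C)) := by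
    intro w he hs
    rcases hZ with ⟨rfl, rfl⟩ | ⟨rfl, rfl⟩
    · rwa [← he]
    · rwa [he]
  by_cases hu9 : u9 = []
  · refine heq (w := []) ?_ h
    rw [hu9]
    simp
  by_cases hu0 : u0 = []
  · refine heq (w := []) ?_ h
    rw [hu0]
    simp
  obtain ⟨b1, b2, K, hw, hK, hI⟩ := h
  have hu99 : ∀ c ∈ u9, c = 9 := by
    intro c hc
    by_contra hne
    have h1 := (WB_cnt (b1 := b1) (b2 := b2) hK c hne).1
    rw [← hw] at h1
    have h2 := h9 c hc
    have h3 := cnt_pos hc
    have h4 := hZc c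
    simp only [List.count_append] at h1
    omega
  have h9mem : 9 ∈ u9 := by
    obtain ⟨x, hx⟩ := List.exists_mem_of_ne_nil u9 hu9
    rw [← hu99 x hx]
    exact hx
  have hne : P ++ Z ≠ [] := by
    intro hcon
    rw [List.append_eq_nil_iff] at hcon
    have h1 := hZc 9
    rw [hcon.2] at h1
    have h2 := cnt_pos h9mem
    simp only [List.count_nil] at h1
    omega
  have hsep : SFr (P ++ Z) := by
    intro c hc h3
    have h1 := (WB_cnt (b1 := b1) (b2 := b2) hK c (by omega)).2 h3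
    rw [← hw] at h1
    have h2 := cnt_pos hc
    have h4 := hPc c
    have h5 := hZc c
    simp only [List.count_append] at h1 h2
    by_cases g0 : 1 ≤ u0.count c
    · omega
    by_cases g3 : 1 ≤ u3.count c
    · omega
    by_cases g9 : 1 ≤ u9.count c
    · have := h9 c (List.count_pos_iff.mp g9)
      omega
    by_cases g10 : 1 ≤ u10.count c
    · have := cnt_pos (h10 c (List.count_pos_iff.mp g10))
      omega
    by_cases g7 : 1 ≤ u7.count c
    · have := cnt_pos (h7 c (List.count_pos_iff.mp g7))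
      omega
    omega
  have hmem9 : 9 ∈ P ++ Z := by
    refine List.mem_append_right _ (List.count_pos_iff.mp ?_)
    have h1 := hZc 9
    have h2 := cnt_pos h9mem
    omega
  rcases facB hK hsep hne hw.symm with h99 | h7' | ⟨a, c, hKa, hA, hC⟩
  · have hall : ∀ d, 1 ≤ u0.count d ∨ 1 ≤ u9.count d → d = 9 := by
      intro d hd
      refine h99 d (List.mem_append_right _ (List.count_pos_iff.mp ?_))
      have h1 := hZc d
      omega
    refine heq (w := []) (comm9 (fun d hd => hall d (Or.inl (cnt_pos hd)))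
      (fun d hd => hall d (Or.inr (cnt_pos hd)))) ⟨b1, b2, K, hw, hK, hI⟩
  · rw [h7'] at hmem9
    simp at hmem9
  · have hKc : ∀ d, K.count d = a.count d + (P.count d + Z.count d + c.count d) := by
      intro d
      rw [hKa]
      simp only [List.count_append]
    have hu9e : u9 = [9] := by
      have h1 := hKc 9
      have h2 := hZc 9
      have h3 : K.count 9 = 1 := by
        rw [hK.cnt]
        rfl
      have h4 := List.eq_replicate_of_mem hu99
      have h5 : u9.count 9 = u9.length := by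
        rw [h4]
        simp
      have h6 : 0 < u9.length := List.length_pos_iff.mpr hu9
      have h7 : u9.length = 1 := by omega
      rw [h4, h7]
      rfl
    by_cases h00 : 0 ∈ u0
    · exfalso
      refine h0 K a c hK h00 hu9e ?_
      rw [hKa, hP]
    have hu03 : ∀ d ∈ u0, d = 3 := by
      intro d hd
      have h1 := hKc d
      have h2 := hZc d
      have h3 := hPc d
      have h4 := cnt_pos hd
      have h5 := hK.cnt d
      have h6 : d ∈ K := List.count_pos_iff.mp (by omega)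
      rcases hK.mem h6 with rfl | rfl | rfl | rfl
      · exact absurd hd h00
      · rfl
      · have h7 : ([0, 0, 3, 3, 7, 9] : List ℕ).count 7 = 1 := rfl
        omega
      · have h7 : ([0, 0, 3, 3, 7, 9] : List ℕ).count 9 = 1 := rfl
        omega
    have e37 : Z.filter (two 3 7) = Z'.filter (two 3 7) := by
      have h1 : u9.filter (two 3 7) = [] := by
        rw [hu9e]
        rfl
      rcases hZ with ⟨rfl, rfl⟩ | ⟨rfl, rfl⟩ <;> simp only [List.filter_append, h1,
        List.nil_append, List.append_nil]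
    have e70 : Z.filter (two 7 0) = Z'.filter (two 7 0) := by
      have h1 : u9.filter (two 7 0) = [] := by
        rw [hu9e]
        rfl
      rcases hZ with ⟨rfl, rfl⟩ | ⟨rfl, rfl⟩ <;> simp only [List.filter_append, h1,
        List.nil_append, List.append_nil]
    have e90 : Z.filter (two 9 0) = Z'.filter (two 9 0) := by
      have h1 : u0.filter (two 9 0) = [] := by
        refine filt_nil fun d hd => ?_
        have := hu03 d hd
        omega
      rcases hZ with ⟨rfl, rfl⟩ | ⟨rfl, rfl⟩ <;> simp only [List.filter_append, h1,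
        List.nil_append, List.append_nil]
    refine ⟨b1, b2, a ++ ((P ++ Z') ++ c), ?_, ⟨?_, ?_, ?_, ?_⟩, hI⟩
    · rw [hA, hC, WB_eq]
      simp
    · refine List.Perm.trans ?_ hK.pm
      rw [hKa]
      exact List.Perm.append_left _ (List.Perm.append_right _ (List.Perm.append_left _ hperm))
    · rw [la_filter (l' := K) (by omega)]
      · exact hK.l1
      · rw [hKa]
        simp only [List.filter_append, e37]
    · rw [la_filter (l' := K) (by omega)]
      · exact hK.l2
      · rw [hKa]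
        simp only [List.filter_append, e70]
    · rw [la_filter (l' := K) (by omega)]
      · exact hK.l3
      · rw [hKa]
        simp only [List.filter_append, e90]

/-- a factor of a word of `C` which contains `0` is in the main block -/
theorem facC {K A F C : List ℕ} (hK : CondC K) (hF : SFr F) (h0 : 0 ∈ F)
    (h : WC K = A ++ (F ++ C)) : ∃ a c, K = a ++ (F ++ c) ∧ A = 5 :: 8 :: 7 :: 11 :: a ∧
      C = c ++ [2, 10, 14] := by
  have hne : F ≠ [] := by
    rintro rfl
    simp at h0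
  obtain ⟨R1, r, R2, a, c, hR, hBr, hA, hC⟩ := H66.fac [1, 2, 3, 0, 4] (BC K) A F C
    (sfrC hK) hF hne h
  have hr : r ∈ ([1, 2, 3, 0, 4] : List ℕ) := by
    rw [hR]
    simp
  have h1 : 0 ∈ BC K r := by
    rw [hBr]
    simp [h0]
  simp only [List.mem_cons, List.not_mem_nil, or_false] at hr
  rcases hr with rfl | rfl | rfl | rfl | rfl
  · simp [BC] at h1
  · simp [BC] at h1
  · simp [BC] at h1
  · obtain ⟨e1, e2⟩ := split0 hR
    subst e1
    subst e2
    refine ⟨a, c, by simpa [BC] using hBr, ?_, ?_⟩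
    · rw [hA]
      simp [Bw, BC]
    · rw [hC]
      simp [Bw, BC]
  · simp [BC] at h1

theorem k_eq : ∀ K ∈ List.permutations' [0, 0, 3, 3, 7, 10],
    (K.filter (two 0 10)).head? = some 0 → (K.filter (two 10 3)).head? = some 10 →
      (K.filter (two 3 7)).getLast? = some 7 → (K.filter (two 7 0)).getLast? = some 0 →
        K = [0, 10, 3, 3, 7, 0] := by
  decide +kernel

theorem last_eq {l X : List ℕ} {x y : ℕ} (hl : l.getLast? = some x) (h : l = X ++ [y]) : y = x := by
  rw [h] at hl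
  simpa using hl

theorem g1_C {A C w0 w3 w10 w7 w9 K : List ℕ} (hK : CondC K) (l37 : LA 3 7 K) (l70 : LA 7 0 K)
    (h9 : ∀ c ∈ w9, 2 ≤ A.count c) (h10 : ∀ c ∈ w10, c ∈ C) (h7 : ∀ c ∈ w7, c ∈ A)
    (h00 : 0 ∈ w0)
    (h : WC K = A ++ ((w0 ++ (w3 ++ (w10 ++ (w3 ++ (w7 ++ (w9 ++ w0)))))) ++ C)) : False := by
  have hKe : K = [0, 10, 3, 3, 7, 0] := k_eq K (List.mem_permutations'.mpr hK.pm)
    ((fa_iff (by omega) K).mp hK.f1) ((fa_iff (by omega) K).mp hK.f2)
    ((la_iff (by omega) K).mp l37) ((la_iff (by omega) K).mp l70)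
  have hcnt : ∀ c, (WC K).count c = A.count c + (w0.count c + (w3.count c + (w10.count c +
      (w3.count c + (w7.count c + (w9.count c + w0.count c))))) + C.count c) := by
    intro c
    rw [h]
    simp only [List.count_append]
  have hw9 : w9 = [] := by
    rw [List.eq_nil_iff_forall_not_mem]
    intro c hc
    have h1 := hcnt c
    have h2 := (WC_cnt hK c).1
    have h3 := h9 c hc
    have h4 := cnt_pos hc
    omega
  have hsep : SFr (w0 ++ (w3 ++ (w10 ++ (w3 ++ (w7 ++ (w9 ++ w0)))))) := by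
    intro c hc h3
    have h1 := hcnt c
    have h2 := (WC_cnt hK c).2 h3
    have h4 := cnt_pos hc
    simp only [List.count_append] at h4
    by_cases g0 : 1 ≤ w0.count c
    · omega
    by_cases g3 : 1 ≤ w3.count c
    · omega
    by_cases g9 : 1 ≤ w9.count c
    · have := h9 c (List.count_pos_iff.mp g9)
      omega
    by_cases g10 : 1 ≤ w10.count c
    · have := cnt_pos (h10 c (List.count_pos_iff.mp g10))
      omega
    by_cases g7 : 1 ≤ w7.count c
    · have := cnt_pos (h7 c (List.count_pos_iff.mp g7))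
      omega
    omega
  obtain ⟨a, c, hKa, hA, hC⟩ := facC hK hsep (List.mem_append_left _ h00) h
  rw [hKe, hw9, List.nil_append] at hKa
  have hk : ∀ d, ([0, 10, 3, 3, 7, 0] : List ℕ).count d = a.count d + (w0.count d + (w3.count d +
      (w10.count d + (w3.count d + (w7.count d + w0.count d)))) + c.count d) := by
    intro d
    rw [hKa]
    simp only [List.count_append]
  have k0 := hk 0
  have e0 : ([0, 10, 3, 3, 7, 0] : List ℕ).count 0 = 2 := rfl
  have p0 := cnt_pos h00
  rw [e0] at k0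
  -- nothing in front
  have ha : a = [] := by
    rcases a with _ | ⟨x, a⟩
    · rfl
    · have h1 : 0 = x := (List.cons.inj hKa).1
      rw [← h1, List.count_cons_self] at k0
      omega
  -- nothing behind
  have hc : c = [] := by
    rcases List.eq_nil_or_concat c with hc | ⟨c', y, hc⟩
    · exact hc
    · exfalso
      have h1 : y = 0 := by
        refine last_eq (l := [0, 10, 3, 3, 7, 0]) (X := a ++ ((w0 ++ (w3 ++ (w10 ++ (w3 ++
          (w7 ++ w0))))) ++ c')) rfl ?_
        rw [hKa, hc]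
        simp
      have h2 : 1 ≤ c.count 0 := by
        rw [hc, h1]
        simp
      omega
  rw [ha, hc, List.nil_append, List.append_nil] at hKa
  rcases w0 with _ | ⟨x, t⟩
  · simp at h00
  have hx : 0 = x := (List.cons.inj hKa).1
  subst hx
  have ht : t = [] := by
    rcases List.eq_nil_or_concat t with ht | ⟨t', y, ht⟩
    · exact ht
    · exfalso
      have h1 : y = 0 := by
        refine last_eq (l := [0, 10, 3, 3, 7, 0]) (X := (0 :: t) ++ (w3 ++ (w10 ++ (w3 ++
          (w7 ++ (0 :: t')))))) rfl ?_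
        rw [hKa]
        nth_rewrite 2 [ht]
        simp
      have h2 : 1 ≤ t.count 0 := by
        rw [ht, h1]
        simp
      rw [List.count_cons_self] at k0
      omega
  subst ht
  have h1 : [10, 3, 3, 7, 0] = w3 ++ (w10 ++ (w3 ++ (w7 ++ [0]))) := (List.cons.inj hKa).2
  have k10 := hk 10
  have e10 : ([0, 10, 3, 3, 7, 0] : List ℕ).count 10 = 1 := rfl
  rw [e10] at k10
  rcases w3 with _ | ⟨y, w3⟩
  · have h2 : 3 ∈ w10 ++ (w7 ++ [0]) := by
      have h3 : [10, 3, 3, 7, 0] = w10 ++ (w7 ++ [0]) := by simpa using h1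
      rw [← h3]
      simp
    simp only [List.mem_append, List.mem_cons, List.not_mem_nil, or_false] at h2
    rcases h2 with h2 | h2 | h2
    · have h3 := h10 3 h2
      rw [hC, hc] at h3
      simp at h3
    · have h3 := h7 3 h2
      rw [hA, ha] at h3
      simp at h3
    · omega
  · have hy : 10 = y := (List.cons.inj h1).1
    rw [← hy, List.count_cons_self] at k10
    omega

/-! ### the words equivalent to the words of `B` and `C` -/

theorem eqrep {l : List ℕ} (h : ∀ d, d ≠ 9 → l.count d = 0) :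
    l = List.replicate (l.count 9) 9 := by
  have h1 : ∀ c ∈ l, c = 9 := by
    intro c hc
    by_contra hne
    have h2 := h c hne
    have h3 := cnt_pos hc
    omega
  have h2 := List.eq_replicate_of_mem h1
  have h3 : l.count 9 = l.length := by
    rw [h2]
    simp
  rw [h3]
  exact h2

theorem shapeC {β : FIC} (hSHA : ShaStmt) (hRGD : RgdStmt) (H : Hc β) {K w' : List ℕ}
    (hK : CondC K) (h : RR β (WC K) w') : SCf w' := by
  have hnd : ([1, 2, 3, 0, 4] : List ℕ).Nodup := by decide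
  obtain ⟨B', e, hB', he, hw', hno, htw, hlc⟩ := hSHA β H.i2 H.i3 H.na [1, 2, 3, 0, 4] (BC K) w' hnd
    (sfrC hK) h
  have c7 : K.count 7 = 1 := hK.cnt 7
  have c10 : K.count 10 = 1 := hK.cnt 10
  have c0 : K.count 0 = 2 := hK.cnt 0
  have c3 : K.count 3 = 2 := hK.cnt 3
  have a7 := htw 7 3 0 (by decide) (by simp) (by simp) (by decide) (by
    intro q hq
    simp only [List.mem_cons, List.not_mem_nil, or_false] at hq
    rcases hq with rfl | rfl | rfl | rfl | rfl <;> simp [BC, c7])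
  have a10 := htw 10 0 4 (by decide) (by simp) (by simp) (by decide) (by
    intro q hq
    simp only [List.mem_cons, List.not_mem_nil, or_false] at hq
    rcases hq with rfl | rfl | rfl | rfl | rfl <;> simp [BC, c10])
  have b0 : ∀ q ∈ ([1, 2, 3, 0, 4] : List ℕ), (BC K q).count 0 = if q = 0 then 2 else 0 := by
    intro q hq
    simp only [List.mem_cons, List.not_mem_nil, or_false] at hq
    rcases hq with rfl | rfl | rfl | rfl | rfl <;> simp [BC, c0]
  have b3 : ∀ q ∈ ([1, 2, 3, 0, 4] : List ℕ), (BC K q).count 3 = if q = 0 then 2 else 0 := by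
    intro q hq
    simp only [List.mem_cons, List.not_mem_nil, or_false] at hq
    rcases hq with rfl | rfl | rfl | rfl | rfl <;> simp [BC, c3]
  have b10 : ∀ q ∈ ([1, 2, 3, 0, 4] : List ℕ),
      (BC K q).count 10 = if q = 4 ∨ q = 0 then 1 else 0 := by
    intro q hq
    simp only [List.mem_cons, List.not_mem_nil, or_false] at hq
    rcases hq with rfl | rfl | rfl | rfl | rfl <;> simp [BC, c10]
  have a0 := hlc 0 0 (by decide) (by simp) b0
  have a3 := hlc 3 0 (by decide) (by simp) b3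
  have aother : ∀ c, c ≠ 0 → c ≠ 3 → c ≠ 7 → c ≠ 10 →
      (∀ r ∈ ([1, 2, 3, 0, 4] : List ℕ), (B' r).count c = 0) ∧ e.count c = 0 := by
    intro c n0 n3 n7 n10
    obtain ⟨x1, x2⟩ := hno c (by
      intro r hr hc
      unfold BC at hc
      split_ifs at hc
      · rw [List.mem_singleton] at hc
        omega
      · have := hK.mem hc
        omega
      · rw [List.mem_singleton] at hc
        omega
      · simp at hc)
    exact ⟨fun r hr => List.count_eq_zero.mpr (x1 r hr), List.count_eq_zero.mpr x2⟩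
  have hall : ∀ d, (B' 1).count d = 0 ∧ (B' 2).count d = 0 ∧ (B' 3).count d = ([7] : List ℕ).count d ∧
      (B' 0).count d = ([0, 0, 3, 3, 7, 10] : List ℕ).count d ∧
      (B' 4).count d = ([10] : List ℕ).count d ∧ e.count d = 0 := by
    intro d
    by_cases d0 : d = 0
    · subst d0
      have x1 := a0.1 1 (by simp)
      have x2 := a0.1 2 (by simp)
      have x3 := a0.1 3 (by simp)
      have x0 := a0.1 0 (by simp)
      have x4 := a0.1 4 (by simp)
      exact ⟨x1, x2, x3, x0, x4, a0.2⟩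
    by_cases d3 : d = 3
    · subst d3
      have x1 := a3.1 1 (by simp)
      have x2 := a3.1 2 (by simp)
      have x3 := a3.1 3 (by simp)
      have x0 := a3.1 0 (by simp)
      have x4 := a3.1 4 (by simp)
      exact ⟨x1, x2, x3, x0, x4, a3.2⟩
    by_cases d7 : d = 7
    · subst d7
      have x1 := a7.1 1 (by simp)
      have x2 := a7.1 2 (by simp)
      have x3 := a7.1 3 (by simp)
      have x0 := a7.1 0 (by simp)
      have x4 := a7.1 4 (by simp)
      exact ⟨x1, x2, x3, x0, x4, a7.2⟩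
    by_cases d10 : d = 10
    · subst d10
      have x1 := a10.1 1 (by simp)
      have x2 := a10.1 2 (by simp)
      have x3 := a10.1 3 (by simp)
      have x0 := a10.1 0 (by simp)
      have x4 := a10.1 4 (by simp)
      exact ⟨x1, x2, x3, x0, x4, a10.2⟩
    obtain ⟨y1, y2⟩ := aother d d0 d3 d7 d10
    refine ⟨y1 1 (by simp), y1 2 (by simp), ?_, ?_, ?_, y2⟩
    · rw [y1 3 (by simp), eq_comm, List.count_eq_zero]
      simp [d7]
    · rw [y1 0 (by simp), eq_comm, List.count_eq_zero]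
      simp [d0, d3, d7, d10]
    · rw [y1 4 (by simp), eq_comm, List.count_eq_zero]
      simp [d10]
  have nil_of : ∀ l : List ℕ, (∀ d, l.count d = 0) → l = [] := by
    intro l hl
    rw [List.eq_nil_iff_forall_not_mem]
    intro a ha
    exact List.count_eq_zero.mp (hl a) ha
  have e1 : B' 1 = [] := nil_of _ fun d => (hall d).1
  have e2 : B' 2 = [] := nil_of _ fun d => (hall d).2.1
  have e3 : B' 3 = [7] := List.perm_singleton.mp (List.perm_iff_count.mpr fun d => (hall d).2.2.1)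
  have e4 : B' 4 = [10] :=
    List.perm_singleton.mp (List.perm_iff_count.mpr fun d => (hall d).2.2.2.2.1)
  have ee : e = [] := nil_of _ fun d => (hall d).2.2.2.2.2
  have ep : (B' 0).Perm [0, 0, 3, 3, 7, 10] := List.perm_iff_count.mpr fun d => (hall d).2.2.2.1
  have hww : RR β (Bw [1, 2, 3, 0, 4] (BC K) ++ []) (Bw [1, 2, 3, 0, 4] B' ++ []) := by
    have hw2 : w' = Bw [1, 2, 3, 0, 4] B' ++ [] := by rw [hw', ee]
    rw [← hw2, List.append_nil]
    exact h
  have hB0 : BC K 0 = K := rfl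
  have a10' : ∀ q ∈ ([1, 2, 3, 0, 4] : List ℕ),
      (B' q).count 10 = if q = 4 ∨ q = 0 then 1 else 0 := by
    intro q hq
    rw [a10.1 q hq]
    simp only [or_comm]
  have r1 := hRGD β H.s2 H.nad [1, 2, 3, 0, 4] (BC K) B' [] [] hnd (sfrC hK) (fun r _ => hB' r)
    (by intro c hc; simp at hc) (by intro c hc; simp at hc) hww 0 10 0 4 (by decide) (by decide)
    (by decide) ⟨[1, 2, 3], [], [], rfl⟩ b0 a0.1 b10 a10' rfl rfl rfl rfl
  have r2 := hRGD β H.s2 H.nad [1, 2, 3, 0, 4] (BC K) B' [] [] hnd (sfrC hK) (fun r _ => hB' r)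
    (by intro c hc; simp at hc) (by intro c hc; simp at hc) hww 3 10 0 4 (by decide) (by decide)
    (by decide) ⟨[1, 2, 3], [], [], rfl⟩ b3 a3.1 b10 a10' rfl rfl rfl rfl
  rw [hB0] at r1 r2
  refine ⟨B' 0, ?_, ep, r1.mp hK.f1, ?_⟩
  · rw [hw', WC_eq, ee]
    simp [Bw, e1, e2, e3, e4]
  · have m10 : 10 ∈ B' 0 := (ep.mem_iff).mpr (by simp)
    have m10' : 10 ∈ K := (hK.pm.mem_iff).mpr (by simp)
    rw [fa_not (by decide) m10, ← r2, ← fa_not (by decide) m10']
    exact hK.f2

theorem flat_rep (g : ℕ → List ℕ) (hg : g 9 = [9]) (b : ℕ) :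
    (List.replicate b 9).flatMap g = List.replicate b 9 := by
  induction b with
  | zero => rfl
  | succ b ih =>
    rw [List.replicate_succ, List.flatMap_cons, ih, hg]
    rfl

theorem IdB.ins {β : FIC} {b1 b2 : ℕ} (h : IdB β b1 b2) (x y : List ℕ) :
    RR β (9 :: 5 :: 9 :: 8 :: (x ++ 9 :: y))
      (List.replicate b1 9 ++ (5 :: (List.replicate b2 9 ++ (8 :: (x ++ 9 :: y))))) := by
  have h1 := (RR.sub (fun c => if c = 8 then 8 :: x else [c]) h).append (RR.refl y)
  simp only [List.flatMap_append, List.flatMap_cons, List.flatMap_nil] at h1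
  rw [flat_rep _ (by simp), flat_rep _ (by simp)] at h1
  simpa using h1

theorem small0 : ∀ l ∈ List.permutations' [0, 0, 9], l.getLast? = some 0 →
    l = [9, 0, 0] ∨ l = [0, 9, 0] := by
  decide +kernel

theorem small9 : ∀ l ∈ List.permutations' [0, 0, 9], l.getLast? = some 9 → l = [0, 0, 9] := by
  decide +kernel

/-- projection to `9`, `0`, `5`, `8` -/
def p4 (c : ℕ) : Bool := decide (c = 9 ∨ c = 0 ∨ c = 5 ∨ c = 8)

/-- projection to `9`, `5`, `8` -/
def p3 (c : ℕ) : Bool := decide (c = 9 ∨ c = 5 ∨ c = 8)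

theorem p4_filter {b1 b2 : ℕ} {K : List ℕ} (hK : K.Perm [0, 0, 3, 3, 7, 9]) :
    (WB b1 b2 K).filter p4 = List.replicate b1 9 ++ (5 :: (List.replicate b2 9 ++
      (8 :: K.filter (two 9 0)))) := by
  rw [WB_eq]
  have h1 : K.filter p4 = K.filter (two 9 0) := by
    refine List.filter_congr fun c hc => ?_
    have h2 := (hK.mem_iff (a := c)).mp hc
    simp only [List.mem_cons, List.not_mem_nil, or_false] at h2
    rcases h2 with rfl | rfl | rfl | rfl | rfl | rfl <;> rfl
  have h2 : ∀ b, (List.replicate b 9).filter p4 = List.replicate b 9 := by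
    intro b
    rw [List.filter_replicate]
    rfl
  simp only [List.filter_append, List.filter_cons, h1, h2]
  simp [p4]

theorem p3_filter {b1 b2 : ℕ} {K : List ℕ} (hK : K.Perm [0, 0, 3, 3, 7, 9]) :
    (WB b1 b2 K).filter p3 = List.replicate b1 9 ++ (5 :: (List.replicate b2 9 ++ [8, 9])) := by
  rw [WB_eq]
  have h1 : K.filter p3 = [9] := by
    have h2 := hK.filter p3
    exact List.perm_singleton.mp h2
  have h2 : ∀ b, (List.replicate b 9).filter p3 = List.replicate b 9 := by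
    intro b
    rw [List.filter_replicate]
    rfl
  simp only [List.filter_append, List.filter_cons, h1, h2]
  simp [p3]

theorem shapeB {β : FIC} (hSHA : ShaStmt) (hXVB : XvbStmt) (hRGA : RgaStmt) (H : Hc β)
    (hVX : VX β) (hCE : ¬ CE β) {b1 b2 : ℕ} {K w' : List ℕ} (hK : CondB K) (hI : IdB β b1 b2)
    (h : RR β (WB b1 b2 K) w') : SBf β w' := by
  have hnd : ([1, 2, 3, 0, 4] : List ℕ).Nodup := by decide
  obtain ⟨B', e, hB', he, hw', hno, htw, hlc⟩ := hSHA β H.i2 H.i3 H.na [1, 2, 3, 0, 4]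
    (BB b1 b2 K) w' hnd (sfrB hK) h
  have c7 : K.count 7 = 1 := hK.cnt 7
  have c9 : K.count 9 = 1 := hK.cnt 9
  have c0 : K.count 0 = 2 := hK.cnt 0
  have c3 : K.count 3 = 2 := hK.cnt 3
  have b7 : ∀ q ∈ ([1, 2, 3, 0, 4] : List ℕ),
      (BB b1 b2 K q).count 7 = if q = 3 ∨ q = 0 then 1 else 0 := by
    intro q hq
    simp only [List.mem_cons, List.not_mem_nil, or_false] at hq
    rcases hq with rfl | rfl | rfl | rfl | rfl <;> simp [BB, c7, List.count_replicate]
  have b0 : ∀ q ∈ ([1, 2, 3, 0, 4] : List ℕ),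
      (BB b1 b2 K q).count 0 = if q = 0 then 2 else 0 := by
    intro q hq
    simp only [List.mem_cons, List.not_mem_nil, or_false] at hq
    rcases hq with rfl | rfl | rfl | rfl | rfl <;> simp [BB, c0, List.count_replicate]
  have b3 : ∀ q ∈ ([1, 2, 3, 0, 4] : List ℕ),
      (BB b1 b2 K q).count 3 = if q = 0 then 2 else 0 := by
    intro q hq
    simp only [List.mem_cons, List.not_mem_nil, or_false] at hq
    rcases hq with rfl | rfl | rfl | rfl | rfl <;> simp [BB, c3, List.count_replicate]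
  have b9 : ∀ q ∈ ([1, 2, 3, 0, 4] : List ℕ),
      (BB 1 1 K q).count 9 = if q = 1 ∨ q = 2 ∨ q = 0 then 1 else 0 := by
    intro q hq
    simp only [List.mem_cons, List.not_mem_nil, or_false] at hq
    rcases hq with rfl | rfl | rfl | rfl | rfl <;> simp [BB, c9]
  have a7 := htw 7 3 0 (by decide) (by simp) (by simp) (by decide) b7
  have a0 := hlc 0 0 (by decide) (by simp) b0
  have a3 := hlc 3 0 (by decide) (by simp) b3
  -- the words with one `9` at each place
  have h11 : RR β (WB 1 1 K) (WB b1 b2 K) := by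
    obtain ⟨a, c, hac⟩ := List.append_of_mem (hK.pm.mem_iff.mpr (by simp) : 9 ∈ K)
    have h1 := hI.ins (7 :: 11 :: a) (c ++ [2, 14])
    have h2 : WB 1 1 K = 9 :: 5 :: 9 :: 8 :: (7 :: 11 :: a ++ 9 :: (c ++ [2, 14])) := by
      rw [WB_eq, hac]
      simp
    have h3 : WB b1 b2 K = List.replicate b1 9 ++ (5 :: (List.replicate b2 9 ++
        (8 :: (7 :: 11 :: a ++ 9 :: (c ++ [2, 14]))))) := by
      rw [WB_eq, hac]
      simp
    rw [h2, h3]
    exact h1
  have h1w : RR β (WB 1 1 K) w' := β.trans h11 h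
  have x9 := hXVB β hVX [] [] [3] [4] 1 2 0 (BB 1 1 K) B' e 9 hnd (sfrB hK) (fun r _ => hB' r) he
    (by decide) b9 (by rw [hw'] at h1w; exact h1w)
  have aother : ∀ c, c ≠ 0 → c ≠ 3 → c ≠ 7 → c ≠ 9 →
      (∀ r ∈ ([1, 2, 3, 0, 4] : List ℕ), (B' r).count c = 0) ∧ e.count c = 0 := by
    intro c n0 n3 n7 n9
    obtain ⟨x1, x2⟩ := hno c (by
      intro r hr hc
      unfold BB at hc
      split_ifs at hc
      · exact n9 (List.eq_of_mem_replicate hc)
      · exact n9 (List.eq_of_mem_replicate hc)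
      · rw [List.mem_singleton] at hc
        omega
      · have := hK.mem hc
        omega
      · simp at hc)
    exact ⟨fun r hr => List.count_eq_zero.mpr (x1 r hr), List.count_eq_zero.mpr x2⟩
  have hall : ∀ d, (d ≠ 9 → (B' 1).count d = 0) ∧ (d ≠ 9 → (B' 2).count d = 0) ∧
      (B' 3).count d = ([7] : List ℕ).count d ∧
      (B' 0).count d = ([0, 0, 3, 3, 7, 9] : List ℕ).count d ∧
      (B' 4).count d = 0 ∧ e.count d = 0 := by
    intro d
    by_cases d0 : d = 0
    · subst d0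
      have x1 := a0.1 1 (by simp)
      have x2 := a0.1 2 (by simp)
      have x3 := a0.1 3 (by simp)
      have x0 := a0.1 0 (by simp)
      have x4 := a0.1 4 (by simp)
      exact ⟨fun _ => x1, fun _ => x2, x3, x0, x4, a0.2⟩
    by_cases d3 : d = 3
    · subst d3
      have x1 := a3.1 1 (by simp)
      have x2 := a3.1 2 (by simp)
      have x3 := a3.1 3 (by simp)
      have x0 := a3.1 0 (by simp)
      have x4 := a3.1 4 (by simp)
      exact ⟨fun _ => x1, fun _ => x2, x3, x0, x4, a3.2⟩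
    by_cases d7 : d = 7
    · subst d7
      have x1 := a7.1 1 (by simp)
      have x2 := a7.1 2 (by simp)
      have x3 := a7.1 3 (by simp)
      have x0 := a7.1 0 (by simp)
      have x4 := a7.1 4 (by simp)
      exact ⟨fun _ => x1, fun _ => x2, x3, x0, x4, a7.2⟩
    by_cases d9 : d = 9
    · subst d9
      have x3 := x9.2.1 3 (by simp)
      have x4 := x9.2.1 4 (by simp)
      exact ⟨fun hh => absurd rfl hh, fun hh => absurd rfl hh, x3, x9.1, x4, x9.2.2⟩
    obtain ⟨y1, y2⟩ := aother d d0 d3 d7 d9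
    refine ⟨fun _ => y1 1 (by simp), fun _ => y1 2 (by simp), ?_, ?_, y1 4 (by simp), y2⟩
    · rw [y1 3 (by simp), eq_comm, List.count_eq_zero]
      simp [d7]
    · rw [y1 0 (by simp), eq_comm, List.count_eq_zero]
      simp [d0, d3, d7, d9]
  have nil_of : ∀ l : List ℕ, (∀ d, l.count d = 0) → l = [] := by
    intro l hl
    rw [List.eq_nil_iff_forall_not_mem]
    intro a ha
    exact List.count_eq_zero.mp (hl a) ha
  obtain ⟨c1, e1⟩ : ∃ c1, B' 1 = List.replicate c1 9 := ⟨_, eqrep fun d hd => (hall d).1 hd⟩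
  obtain ⟨c2, e2⟩ : ∃ c2, B' 2 = List.replicate c2 9 := ⟨_, eqrep fun d hd => (hall d).2.1 hd⟩
  have e3 : B' 3 = [7] := List.perm_singleton.mp (List.perm_iff_count.mpr fun d => (hall d).2.2.1)
  have e4 : B' 4 = [] := nil_of _ fun d => (hall d).2.2.2.2.1
  have ee : e = [] := nil_of _ fun d => (hall d).2.2.2.2.2
  have ep : (B' 0).Perm [0, 0, 3, 3, 7, 9] := List.perm_iff_count.mpr fun d => (hall d).2.2.2.1
  have hw3 : w' = WB c1 c2 (B' 0) := by
    rw [hw', WB_eq, ee]
    simp [Bw, e1, e2, e3, e4]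
  have hww : RR β (Bw [1, 2, 3, 0, 4] (BB b1 b2 K) ++ []) (Bw [1, 2, 3, 0, 4] B' ++ []) := by
    have hw2 : w' = Bw [1, 2, 3, 0, 4] B' ++ [] := by rw [hw', ee]
    rw [← hw2, List.append_nil]
    exact h
  have hB0 : BB b1 b2 K 0 = K := rfl
  have r1 := hRGA β H.s2 H.na [1, 2, 3, 0, 4] (BB b1 b2 K) B' [] [] hnd (sfrB hK)
    (fun r _ => hB' r) (by intro c hc; simp at hc) (by intro c hc; simp at hc) hww 3 7 0 3
    (by decide) (by decide) (by decide) ⟨[1, 2], [], [4], rfl⟩ b3 a3.1 b7 a7.1 rfl rfl rfl rfl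
  have r2 := hRGA β H.s2 H.na [1, 2, 3, 0, 4] (BB b1 b2 K) B' [] [] hnd (sfrB hK)
    (fun r _ => hB' r) (by intro c hc; simp at hc) (by intro c hc; simp at hc) hww 0 7 0 3
    (by decide) (by decide) (by decide) ⟨[1, 2], [], [4], rfl⟩ b0 a0.1 b7 a7.1 rfl rfl rfl rfl
  rw [hB0] at r1 r2
  have m7 : 7 ∈ B' 0 := (ep.mem_iff).mpr (by simp)
  have m7' : 7 ∈ K := (hK.pm.mem_iff).mpr (by simp)
  have m9 : 9 ∈ B' 0 := (ep.mem_iff).mpr (by simp)
  -- the new one letter identity
  have hI' : IdB β c1 c2 := by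
    have h2 := h1w.filter p3
    rw [hw3, p3_filter hK.pm, p3_filter ep] at h2
    exact h2
  have l3' : LA 9 0 (B' 0) := by
    by_contra hcon
    have h2 : LA 0 9 (B' 0) := by
      by_contra h3
      exact hcon ((la_not (by decide) m9).mpr h3)
    have h3 := h.filter p4
    rw [hw3, p4_filter hK.pm, p4_filter ep] at h3
    have q2 : (B' 0).filter (two 9 0) = [0, 0, 9] := by
      refine small9 _ (List.mem_permutations'.mpr (ep.filter (two 9 0))) ?_
      rw [← two_comm 9 0]
      exact (la_iff (by decide) _).mp h2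
    have q1 := small0 _ (List.mem_permutations'.mpr (hK.pm.filter (two 9 0)))
      ((la_iff (by decide) _).mp hK.l3)
    rw [q2] at h3
    have h4 : RR β [9, 5, 9, 8, 9, 0, 0] (List.replicate b1 9 ++ (5 :: (List.replicate b2 9 ++
        (8 :: K.filter (two 9 0))))) := by
      rcases q1 with q1 | q1
      · rw [q1]
        exact hI.ins [] [0, 0]
      · rw [q1]
        have h5 : RR β [9, 5, 9, 8, 9, 0, 0] [9, 5, 9, 8, 0, 9, 0] :=
          (H27.ctx β).2.1 H.s2 [9, 5, 9, 8] [0] 9 0 (by simp) (by simp)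
        exact β.trans h5 (hI.ins [0] [0])
    have h6 : RR β [9, 5, 9, 8, 0, 0, 9] (List.replicate c1 9 ++ (5 :: (List.replicate c2 9 ++
        (8 :: [0, 0, 9])))) := hI'.ins [0, 0] []
    have h7 : RR β [9, 5, 9, 8, 9, 0, 0] [9, 5, 9, 8, 0, 0, 9] := β.trans h4 (β.trans h3 h6.symm)
    have h8 := h7.sub (fun c => if c = 9 then [0] else if c = 5 then [2] else if c = 8 then [5]
      else if c = 0 then [3] else [c])
    exact hCE h8
  refine ⟨c1, c2, B' 0, hw3, ⟨ep, r1.mp hK.l1, ?_, l3'⟩, hI'⟩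
  rw [la_not (by decide) m7, ← r2, ← la_not (by decide) m7']
  exact hK.l2

/-! ### the substitution instances -/

theorem fl (p : ℕ → Bool) (φ : ℕ → List ℕ) (M l N : List ℕ) :
    (M ++ (l.flatMap φ ++ N)).filter p =
      M.filter p ++ (l.flatMap (fun c => (φ c).filter p) ++ N.filter p) := by
  simp only [List.filter_append, List.filter_flatMap]

theorem g2_iff (β : FIC) {T : List ℕ} (hT : 3 ∈ T) (u : ℕ → List ℕ) (M N : List ℕ) :
    SBf β (M ++ (([9, 5, 9, 8, 7, 11, 0, 10, 3] ++ (T ++ [2, 10, 14])).flatMap u ++ N)) ↔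
      SBf β (M ++ (([9, 5, 9, 8, 7, 11, 0, 3, 10] ++ (T ++ [2, 10, 14])).flatMap u ++ N)) := by
  obtain ⟨A, hA⟩ : ∃ A, A = M ++ (u 9 ++ (u 5 ++ (u 9 ++ (u 8 ++ (u 7 ++ (u 11 ++ u 0)))))) :=
    ⟨_, rfl⟩
  obtain ⟨C, hC⟩ : ∃ C, C = T.flatMap u ++ (u 2 ++ (u 10 ++ (u 14 ++ N))) := ⟨_, rfl⟩
  have h1 : M ++ (([9, 5, 9, 8, 7, 11, 0, 10, 3] ++ (T ++ [2, 10, 14])).flatMap u ++ N) =
      A ++ (u 10 ++ (u 3 ++ C)) := by
    rw [hA, hC]
    simp
  have h2 : M ++ (([9, 5, 9, 8, 7, 11, 0, 3, 10] ++ (T ++ [2, 10, 14])).flatMap u ++ N) =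
      A ++ (u 3 ++ (u 10 ++ C)) := by
    rw [hA, hC]
    simp
  have h3 : ∀ c ∈ u 3, c ∈ C := by
    intro c hc
    rw [hC]
    exact List.mem_append_left _ (List.mem_flatMap.mpr ⟨3, hT, hc⟩)
  have h10 : ∀ c ∈ u 10, c ∈ C := by
    intro c hc
    rw [hC]
    simp [hc]
  rw [h1, h2]
  exact ⟨ex_keep h10 h3, ex_keep h3 h10⟩

theorem nine_nil {w : ℕ → List ℕ} {X : List ℕ} (h : SCf X)
    (hc : ∀ c, 3 * (w 9).count c ≤ X.count c) : w 9 = [] := by
  obtain ⟨K, hX, hK⟩ := h
  rw [List.eq_nil_iff_forall_not_mem]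
  intro c hcc
  have h1 := hc c
  have h2 := (WC_cnt hK c).1
  have h3 := cnt_pos hcc
  rw [hX] at h1
  omega

theorem g3_iff (T : List ℕ) (w : ℕ → List ℕ) (M N : List ℕ) :
    SCf (M ++ (([9, 5, 9, 8, 7, 11] ++ (T ++ [9, 0, 2, 10, 14])).flatMap w ++ N)) ↔
      SCf (M ++ (([9, 5, 9, 8, 7, 11] ++ (T ++ [0, 9, 2, 10, 14])).flatMap w ++ N)) := by
  constructor
  · intro h
    have h9 : w 9 = [] := by
      refine nine_nil h fun c => ?_
      simp only [List.flatMap_append, List.flatMap_cons, List.flatMap_nil, List.count_append]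
      omega
    have h1 : M ++ (([9, 5, 9, 8, 7, 11] ++ (T ++ [0, 9, 2, 10, 14])).flatMap w ++ N) =
        M ++ (([9, 5, 9, 8, 7, 11] ++ (T ++ [9, 0, 2, 10, 14])).flatMap w ++ N) := by
      simp only [List.flatMap_append, List.flatMap_cons, List.flatMap_nil, h9, List.nil_append]
    rw [h1]
    exact h
  · intro h
    have h9 : w 9 = [] := by
      refine nine_nil h fun c => ?_
      simp only [List.flatMap_append, List.flatMap_cons, List.flatMap_nil, List.count_append]
      omega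
    have h1 : M ++ (([9, 5, 9, 8, 7, 11] ++ (T ++ [9, 0, 2, 10, 14])).flatMap w ++ N) =
        M ++ (([9, 5, 9, 8, 7, 11] ++ (T ++ [0, 9, 2, 10, 14])).flatMap w ++ N) := by
      simp only [List.flatMap_append, List.flatMap_cons, List.flatMap_nil, h9, List.nil_append]
    rw [h1]
    exact h

/-- the orders in the main blocks agree -/
theorem transf {v : List ℕ} {b1 b2 : ℕ} {K K' : List ℕ}
    (h1 : v.filter (fun c => decide (c ≠ 10)) = WB b1 b2 K)
    (h2 : v.filter (fun c => decide (c ≠ 9)) = WC K') (hK : CondB K) :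
    LA 3 7 K' ∧ LA 7 0 K' := by
  have hrep : ∀ (p : ℕ → Bool) b, p 9 = false → (List.replicate b 9).filter p = [] := by
    intro p b hp
    rw [List.filter_replicate, hp]
    rfl
  have key : ∀ p : ℕ → Bool, p 10 = false → p 9 = false → p 5 = false → p 8 = false →
      p 11 = false → p 2 = false → p 14 = false → p 7 = true → K.filter p = K'.filter p := by
    intro p p10 p9 p5 p8 p11 p2 p14 p7
    have e1 : (v.filter (fun c => decide (c ≠ 10))).filter p = v.filter p := by
      rw [List.filter_filter]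
      refine List.filter_congr fun c _ => ?_
      by_cases hc : c = 10
      · rw [hc, p10]
        rfl
      · simp [hc]
    have e2 : (v.filter (fun c => decide (c ≠ 9))).filter p = v.filter p := by
      rw [List.filter_filter]
      refine List.filter_congr fun c _ => ?_
      by_cases hc : c = 9
      · rw [hc, p9]
        rfl
      · simp [hc]
    rw [h1, WB_eq] at e1
    rw [h2, WC_eq] at e2
    have e3 := e1.trans e2.symm
    simp only [List.filter_append, List.filter_cons, List.filter_nil, hrep p _ p9, p5, p8, p11, p2,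
      p14, p7, p10, List.nil_append, List.append_nil] at e3
    simpa using e3
  constructor
  · rw [la_iff (by decide), ← key (two 3 7) rfl rfl rfl rfl rfl rfl rfl rfl]
    exact (la_iff (by decide) _).mp hK.l1
  · rw [la_iff (by decide), ← key (two 7 0) rfl rfl rfl rfl rfl rfl rfl rfl]
    exact (la_iff (by decide) _).mp hK.l2

/-- from `V11` to `V01` -/
theorem g1_back (β : FIC) (u : ℕ → List ℕ) (M N : List ℕ)
    (h : SBf β (M ++ (([9, 5, 9, 8, 7, 11, 0, 3, 10, 3, 7, 0, 9, 2, 10, 14] : List ℕ).flatMap u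
      ++ N))) :
    SBf β (M ++ (([9, 5, 9, 8, 7, 11, 0, 3, 10, 3, 7, 9, 0, 2, 10, 14] : List ℕ).flatMap u
      ++ N)) := by
  obtain ⟨A, hA⟩ : ∃ A, A = M ++ (u 9 ++ (u 5 ++ (u 9 ++ (u 8 ++ (u 7 ++ u 11))))) := ⟨_, rfl⟩
  obtain ⟨C, hC⟩ : ∃ C, C = u 2 ++ (u 10 ++ (u 14 ++ N)) := ⟨_, rfl⟩
  have h1 : M ++ (([9, 5, 9, 8, 7, 11, 0, 3, 10, 3, 7, 0, 9, 2, 10, 14] : List ℕ).flatMap u ++ N) =
      A ++ (((u 0 ++ (u 3 ++ (u 10 ++ (u 3 ++ u 7)))) ++ (u 0 ++ u 9)) ++ C) := by
    rw [hA, hC]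
    simp
  have h2 : M ++ (([9, 5, 9, 8, 7, 11, 0, 3, 10, 3, 7, 9, 0, 2, 10, 14] : List ℕ).flatMap u ++ N) =
      A ++ (((u 0 ++ (u 3 ++ (u 10 ++ (u 3 ++ u 7)))) ++ (u 9 ++ u 0)) ++ C) := by
    rw [hA, hC]
    simp
  rw [h1] at h
  rw [h2]
  refine g1_core ?_ ?_ ?_ (Or.inl ⟨rfl, rfl⟩) ?_ h
  · intro c hc
    have h3 := cnt_pos hc
    rw [hA]
    simp only [List.count_append]
    omega
  · intro c hc
    rw [hC]
    simp [hc]
  · intro c hc
    rw [hA]
    simp [hc]
  · intro K a c hK h00 h9 hKa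
    have h3 : K.count 0 = 2 := hK.cnt 0
    have h4 := cnt_pos h00
    rw [hKa] at h3
    simp only [List.count_append] at h3
    have h5 : 0 ∉ c := by
      intro h6
      have := cnt_pos h6
      omega
    have h6 : LA 0 9 K := by
      refine ⟨a ++ ((u 0 ++ (u 3 ++ (u 10 ++ (u 3 ++ u 7)))) ++ u 0), c, ?_, h5⟩
      rw [hKa, h9]
      simp
    have h7 : 9 ∈ K := hK.pm.mem_iff.mpr (by simp)
    exact (la_not (by decide) h7).mp hK.l3 h6

/-- from `V01` to `V11` -/
theorem g1_forw (β : FIC) (φ : ℕ → List ℕ) (M N : List ℕ)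
    (h : SB β (M ++ (([9, 5, 9, 8, 7, 11, 0, 3, 10, 3, 7, 9, 0, 2, 10, 14] : List ℕ).flatMap φ
      ++ N)))
    (h' : SC (M ++ (([9, 5, 9, 8, 7, 11, 0, 3, 10, 3, 7, 9, 0, 2, 10, 14] : List ℕ).flatMap φ
      ++ N))) :
    SB β (M ++ (([9, 5, 9, 8, 7, 11, 0, 3, 10, 3, 7, 0, 9, 2, 10, 14] : List ℕ).flatMap φ
      ++ N)) := by
  obtain ⟨b1, b2, K0, hw0, hK0, hI0⟩ := id h
  obtain ⟨KC, hwC, hKC⟩ := h'
  obtain ⟨l37, l70⟩ := transf hw0 hwC hK0
  rw [fl] at hwC
  unfold SB at h ⊢
  rw [fl] at h ⊢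
  obtain ⟨u, hu⟩ : ∃ u : ℕ → List ℕ, u = fun c => (φ c).filter (fun c => decide (c ≠ 10)) :=
    ⟨_, rfl⟩
  obtain ⟨w, hw⟩ : ∃ w : ℕ → List ℕ, w = fun c => (φ c).filter (fun c => decide (c ≠ 9)) :=
    ⟨_, rfl⟩
  obtain ⟨M1, hM1⟩ : ∃ M1, M1 = M.filter (fun c => decide (c ≠ 10)) := ⟨_, rfl⟩
  obtain ⟨N1, hN1⟩ : ∃ N1, N1 = N.filter (fun c => decide (c ≠ 10)) := ⟨_, rfl⟩
  obtain ⟨M2, hM2⟩ : ∃ M2, M2 = M.filter (fun c => decide (c ≠ 9)) := ⟨_, rfl⟩
  obtain ⟨N2, hN2⟩ : ∃ N2, N2 = N.filter (fun c => decide (c ≠ 9)) := ⟨_, rfl⟩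
  rw [← hu, ← hM1, ← hN1] at h ⊢
  rw [← hw, ← hM2, ← hN2] at hwC
  have h1 : M1 ++ (([9, 5, 9, 8, 7, 11, 0, 3, 10, 3, 7, 9, 0, 2, 10, 14] : List ℕ).flatMap u
      ++ N1) = (M1 ++ (u 9 ++ (u 5 ++ (u 9 ++ (u 8 ++ (u 7 ++ u 11)))))) ++
        (((u 0 ++ (u 3 ++ (u 10 ++ (u 3 ++ u 7)))) ++ (u 9 ++ u 0)) ++
          (u 2 ++ (u 10 ++ (u 14 ++ N1)))) := by
    simp
  have h2 : M1 ++ (([9, 5, 9, 8, 7, 11, 0, 3, 10, 3, 7, 0, 9, 2, 10, 14] : List ℕ).flatMap u
      ++ N1) = (M1 ++ (u 9 ++ (u 5 ++ (u 9 ++ (u 8 ++ (u 7 ++ u 11)))))) ++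
        (((u 0 ++ (u 3 ++ (u 10 ++ (u 3 ++ u 7)))) ++ (u 0 ++ u 9)) ++
          (u 2 ++ (u 10 ++ (u 14 ++ N1)))) := by
    simp
  have h3 : M2 ++ (([9, 5, 9, 8, 7, 11, 0, 3, 10, 3, 7, 9, 0, 2, 10, 14] : List ℕ).flatMap w
      ++ N2) = (M2 ++ (w 9 ++ (w 5 ++ (w 9 ++ (w 8 ++ (w 7 ++ w 11)))))) ++
        ((w 0 ++ (w 3 ++ (w 10 ++ (w 3 ++ (w 7 ++ (w 9 ++ w 0)))))) ++
          (w 2 ++ (w 10 ++ (w 14 ++ N2)))) := by
    simp
  rw [h1] at h
  rw [h2]
  rw [h3] at hwC
  refine g1_core ?_ ?_ ?_ (Or.inr ⟨rfl, rfl⟩) ?_ h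
  · intro c hc
    have h4 := cnt_pos hc
    simp only [List.count_append]
    omega
  · intro c hc
    simp [hc]
  · intro c hc
    simp [hc]
  · intro K a c _ h00 _ _
    refine g1_C hKC l37 l70 (w9 := w 9) ?_ ?_ ?_ (w0 := w 0) ?_ hwC.symm
    · intro c hc
      have h4 := cnt_pos hc
      simp only [List.count_append]
      omega
    · intro c hc
      simp [hc]
    · intro c hc
      simp [hc]
    · rw [hu, List.mem_filter] at h00
      rw [hw, List.mem_filter]
      exact ⟨h00.1, by simp⟩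

/-- **NCE** -/
theorem nce (hSHA : ShaStmt) (hVEC : VecStmt) (hXVB : XvbStmt) (hRGA : RgaStmt)
    (hRGD : RgdStmt) : NceStmt := by
  intro β H
  by_contra hCE
  have hVX : VX β := by
    rcases hVEC β H.s2 H.zz with h | h
    · exact h
    · exfalso
      refine hCE ?_
      have h1 : RR β [0, 2, 0, 5, 3, 0, 3] [0, 2, 0, 5, 3, 3, 0] :=
        h 0 [0, 2, 0, 5] [] [] 0 3 (by simp) (by intro a ha; simp at ha) (by simp)
      have h2 : RR β [0, 2, 0, 5, 0, 3, 3] [0, 2, 0, 5, 3, 0, 3] :=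
        (H27.ctx β).2.1 H.s2 [0, 2, 0, 5] [3] 0 3 (by simp) (by simp)
      exact β.trans h2 h1
  obtain ⟨ρ, hβρ, hGρ, hminρ, hkρ⟩ := H32.gen β (fun e => e =
    ([9, 5, 9, 8, 7, 11, 0, 3, 10, 3, 7, 9, 0, 2, 10, 14],
      [9, 5, 9, 8, 7, 11, 0, 3, 10, 3, 7, 0, 9, 2, 10, 14]))
  obtain ⟨σ, hβσ, hGσ, _, hkσ⟩ := H32.gen β (fun e => e =
    ([9, 5, 9, 8, 7, 11, 0, 10, 3, 3, 7, 9, 0, 2, 10, 14],
      [9, 5, 9, 8, 7, 11, 0, 3, 10, 3, 7, 9, 0, 2, 10, 14]) ∨ e =
    ([9, 5, 9, 8, 7, 11, 0, 10, 3, 3, 7, 0, 9, 2, 10, 14],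
      [9, 5, 9, 8, 7, 11, 0, 3, 10, 3, 7, 0, 9, 2, 10, 14]))
  obtain ⟨τ, hβτ, hGτ, _, hkτ⟩ := H32.gen β (fun e => e =
    ([9, 5, 9, 8, 7, 11, 0, 3, 10, 3, 7, 9, 0, 2, 10, 14],
      [9, 5, 9, 8, 7, 11, 0, 3, 10, 3, 7, 0, 9, 2, 10, 14]) ∨ e =
    ([9, 5, 9, 8, 7, 11, 0, 10, 3, 3, 7, 9, 0, 2, 10, 14],
      [9, 5, 9, 8, 7, 11, 0, 10, 3, 3, 7, 0, 9, 2, 10, 14]))
  have hρτ : ρ ≤ τ := by
    apply hminρ τ hβτ
    rintro e rfl
    exact hGτ _ (Or.inl rfl)
  have kB : ∀ w w', RR β w w' → SB β w → SB β w' := by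
    rintro w w' hw ⟨b1, b2, K, hK1, hK2, hK3⟩
    have h1 := hw.filter (fun c => decide (c ≠ 10))
    rw [hK1] at h1
    exact shapeB hSHA hXVB hRGA H hVX hCE hK2 hK3 h1
  have kC : ∀ w w', RR β w w' → SC w → SC w' := by
    rintro w w' hw ⟨K, hK1, hK2⟩
    have h1 := hw.filter (fun c => decide (c ≠ 9))
    rw [hK1] at h1
    exact shapeC hSHA hRGD H hK2 h1
  have i3 : ∀ (T : List ℕ) (φ : ℕ → List ℕ) (M N : List ℕ),
      SC (M ++ (([9, 5, 9, 8, 7, 11] ++ (T ++ [9, 0, 2, 10, 14])).flatMap φ ++ N)) ↔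
        SC (M ++ (([9, 5, 9, 8, 7, 11] ++ (T ++ [0, 9, 2, 10, 14])).flatMap φ ++ N)) := by
    intro T φ M N
    unfold SC
    rw [fl, fl]
    exact g3_iff T _ _ _
  have i2 : ∀ (T : List ℕ) (_ : 3 ∈ T) (φ : ℕ → List ℕ) (M N : List ℕ),
      SB β (M ++ (([9, 5, 9, 8, 7, 11, 0, 10, 3] ++ (T ++ [2, 10, 14])).flatMap φ ++ N)) ↔
        SB β (M ++ (([9, 5, 9, 8, 7, 11, 0, 3, 10] ++ (T ++ [2, 10, 14])).flatMap φ ++ N)) := by
    intro T hT φ M N
    unfold SB
    rw [fl, fl]
    exact g2_iff β hT _ _ _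
  have i1 : ∀ (φ : ℕ → List ℕ) (M N : List ℕ),
      SB β (M ++ (([9, 5, 9, 8, 7, 11, 0, 3, 10, 3, 7, 0, 9, 2, 10, 14] : List ℕ).flatMap φ
        ++ N)) →
      SB β (M ++ (([9, 5, 9, 8, 7, 11, 0, 3, 10, 3, 7, 9, 0, 2, 10, 14] : List ℕ).flatMap φ
        ++ N)) := by
    intro φ M N h
    unfold SB at h ⊢
    rw [fl] at h ⊢
    exact g1_back β _ _ _ h
  have keepA := hkρ (fun w => SB β w ∧ SC w) (fun w w' hw h => ⟨kB w w' hw h.1, kC w w' hw h.2⟩)
    (by
      rintro e rfl φ M N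
      have h3 := i3 [0, 3, 10, 3, 7] φ M N
      constructor
      · rintro ⟨hb, hc⟩
        exact ⟨g1_forw β φ M N hb hc, h3.mp hc⟩
      · rintro ⟨hb, hc⟩
        exact ⟨i1 φ M N hb, h3.mpr hc⟩)
  have keepB := hkσ (SB β) kB
    (by
      rintro e (rfl | rfl) φ M N
      · exact i2 [3, 7, 9, 0] (by simp) φ M N
      · exact i2 [3, 7, 0, 9] (by simp) φ M N)
  have keepC := hkτ SC kC
    (by
      rintro e (rfl | rfl) φ M N
      · exact i3 [0, 3, 10, 3, 7] φ M N
      · exact i3 [0, 10, 3, 3, 7] φ M N)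
  refine H21.pen β H.md ρ σ τ (fun w => SB β w ∧ SC w) (SB β) SC hβρ hβσ hβτ hρτ keepA keepB keepC
    (fun w h => h) (fun w h1 h2 => ⟨h1, h2⟩)
    [9, 5, 9, 8, 7, 11, 0, 10, 3, 3, 7, 9, 0, 2, 10, 14]
    [9, 5, 9, 8, 7, 11, 0, 10, 3, 3, 7, 0, 9, 2, 10, 14] ?_ ?_ (hGτ _ (Or.inr rfl)) ?_
  · refine ⟨⟨1, 1, [0, 3, 3, 7, 9, 0], by rw [WB_eq]; rfl, ⟨by decide, ?_, ?_, ?_⟩, ?_⟩,
      ⟨[0, 10, 3, 3, 7, 0], by rw [WC_eq]; rfl, ⟨by decide, ?_, ?_⟩⟩⟩
    · exact ⟨[0, 3, 3], [9, 0], rfl, by simp⟩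
    · exact ⟨[0, 3, 3, 7, 9], [], rfl, by simp⟩
    · exact ⟨[0, 3, 3, 7, 9], [], rfl, by simp⟩
    · exact RR.refl _
    · exact ⟨[], [10, 3, 3, 7, 0], rfl, by simp⟩
    · exact ⟨[0], [3, 3, 7, 0], rfl, by simp⟩
  · rintro ⟨⟨b1, b2, K, hK1, hK2, hK3⟩, -⟩
    have h1 := congrArg (List.filter (two 9 0)) hK1
    rw [WB_eq] at h1
    have h2 : (List.replicate b1 9 ++ (5 :: (List.replicate b2 9 ++ (8 :: 7 :: 11 ::
        (K ++ [2, 14]))))).filter (two 9 0) = List.replicate b1 9 ++ (List.replicate b2 9 ++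
          K.filter (two 9 0)) := by
      have h3 : ∀ b, (List.replicate b 9).filter (two 9 0) = List.replicate b 9 := by
        intro b
        rw [List.filter_replicate]
        rfl
      simp only [List.filter_append, List.filter_cons, h3]
      simp [two]
    rw [h2] at h1
    have h4 : (K.filter (two 9 0)).getLast? = some 0 := (la_iff (by decide) _).mp hK2.l3
    have h5 := congrArg List.getLast? h1
    rw [List.getLast?_append, List.getLast?_append, h4, Option.some_or, Option.some_or] at h5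
    exact absurd h5 (by decide)
  · have s1 := hGσ _ (Or.inl rfl)
    have s2 := hGρ _ rfl
    have s3 := hGσ _ (Or.inr rfl)
    have l1 := FIC.le_sup_right ρ σ
    have l2 := FIC.le_sup_left ρ σ
    have c1 := l1 _ _ s1
    have c2 := l2 _ _ s2
    have c3 := l1 _ _ s3
    exact (FIC.sup ρ σ).trans c1 ((FIC.sup ρ σ).trans c2 ((FIC.sup ρ σ).symm c3))

end Pool.Agent.MVD.H69
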